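import Pool.Agent.Lib.helper21.RI

set_option autoImplicit false

/-! A set whose bounded finite-one preimages are measured by rational numbers. -/

namespace Pool.Agent.H.MP_d57ee4_lc

open Filter Pool.Agent.Lib.helper21 Pool.Agent.Lib.helper21.PR Function

attribute [local irreducible] Primrec Computable

abbrev C0 (f : ℕ → ℕ) : Prop := CI (fun _ => false) f

theorem C0.comp {f : ℕ → ℕ} (h : C0 f) : Computable f := by
  unfold Computable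
  exact RecursiveIn.partrec_of_const (s := Part.some 0) h.red

theorem C0.o {f g : ℕ → ℕ} (h : C0 f) (h' : C0 g) : C0 (f ∘ g) := ci_comp (f := f) (g := g) h h'

noncomputable def fib (F : ℕ → ℕ) (i : ℕ) : ℕ∞ := (F ⁻¹' {i}).encard

def Hom (F : ℕ → ℕ) (w : ℕ) : Prop := ∀ i, 2 ≤ i → fib F i = w
def Bd (F : ℕ → ℕ) : Prop := ∃ c : ℕ, ∀ i, 2 ≤ i → fib F i ≤ c
def Rich (F : ℕ → ℕ) : Prop := ∀ i < 2, fib F i = ⊤
def Reg (t : ℕ) (ρ : ℕ → ℕ) : Prop := C0 ρ ∧ (∀ i < 2, ρ i = i) ∧ Hom ρ t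

variable {F F' ρ : ℕ → ℕ} {t w w' : ℕ}

theorem enc (F : ℕ → ℕ) (S : Finset ℕ) : (F ⁻¹' S).encard = ∑ j ∈ S, fib F j := by
  induction S using Finset.induction_on with
  | empty => simp
  | insert a S ha ih =>
    rw [Finset.sum_insert ha, ← ih, Finset.coe_insert, Set.insert_eq, Set.preimage_union,
      Set.encard_union_eq (Disjoint.preimage _ (by simpa)), fib]

theorem fib_comp (h : Hom ρ t) (F : ℕ → ℕ) {i : ℕ} (hi : 2 ≤ i) : ∃ S : Finset ℕ, S.card = t ∧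
    (∀ j ∈ S, ρ j = i) ∧ fib (ρ ∘ F) i = ∑ j ∈ S, fib F j := by
  have h1 := Set.finite_of_encard_eq_coe (h i hi)
  refine ⟨h1.toFinset, ?_, by simp, by rw [← enc, h1.coe_toFinset]; rfl⟩
  exact_mod_cast (h1.encard_eq_coe_toFinset_card).symm.trans (h i hi)

theorem Reg.two (h : Reg t ρ) {i j : ℕ} (hi : 2 ≤ i) (e : ρ j = i) : 2 ≤ j :=
  not_lt.1 fun c => by have := h.2.1 j c; omega

theorem Hom.comp (hF : Hom F w) (h : Reg t ρ) : Hom (ρ ∘ F) (t * w) := fun i hi => by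
  obtain ⟨S, h1, h2, h3⟩ := fib_comp h.2.2 F hi
  rw [h3, Finset.sum_congr rfl fun j hj => hF j (h.two hi (h2 j hj))]
  simp [h1]

theorem Bd.comp (hF : Bd F) (h : Reg t ρ) : Bd (ρ ∘ F) := by
  obtain ⟨c, hc⟩ := hF
  refine ⟨t * c, fun i hi => ?_⟩
  obtain ⟨S, h1, h2, h3⟩ := fib_comp h.2.2 F hi
  simpa [h3, h1] using Finset.sum_le_card_nsmul _ _ _ fun j hj => hc j (h.two hi (h2 j hj))

theorem Rich.comp (hF : Rich F) (h : Reg t ρ) : Rich (ρ ∘ F) := fun i hi =>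
  top_le_iff.1 ((hF i hi).ge.trans (Set.encard_le_encard fun z hz => by
    simp [show F z = i from hz, h.2.1 i hi]))

theorem Reg.comp {t' : ℕ} {ρ' : ℕ → ℕ} (h : Reg t ρ) (h' : Reg t' ρ') : Reg (t' * t) (ρ' ∘ ρ) :=
  ⟨h'.1.o h.1, fun i hi => by simp [h.2.1 i hi, h'.2.1 i hi], h.2.2.comp h'⟩

theorem Hom.uniq (h : Hom F w) (h' : Hom F w') : w = w' := by
  exact_mod_cast (h 2 le_rfl).symm.trans (h' 2 le_rfl)

theorem le_fib {i : ℕ} : w ≤ fib F i ↔ ∃ m, w ≤ ((Finset.range m).filter (F · = i)).card := by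
  refine ⟨fun h => ?_, fun ⟨m, h⟩ => (Nat.cast_le.2 h).trans ((Set.encard_coe_eq_coe_finsetCard
    _).ge.trans (Set.encard_le_encard fun z hz => by simpa using (by simpa using hz : _ ∧ _).2))⟩
  obtain ⟨S, h1, h2⟩ := Set.exists_subset_encard_eq h
  lift S to Finset ℕ using Set.finite_of_encard_eq_coe h2
  refine ⟨S.sup id + 1, (by simpa using h2 : S.card = w) ▸ Finset.card_le_card fun z hz => ?_⟩
  simpa using ⟨Finset.le_sup (f := id) hz, h1 hz⟩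

theorem homog (hF : C0 F) (hb : Bd F) :
    ∃ ρ w, Reg 2 ρ ∧ Hom (ρ ∘ F) w ∧ (0 < w → Rich (ρ ∘ F)) := by
  classical
  have h0 : ∃ n : ℕ, ∀ᶠ i in atTop, fib F i ≤ n :=
    hb.imp fun c hc => (eventually_ge_atTop 2).mono hc
  obtain ⟨N, hN⟩ := eventually_atTop.1 ((Nat.find_spec h0).and (eventually_ge_atTop 2))
  have h1 : ∃ᶠ i in atTop, (Nat.find h0 : ℕ) ≤ fib F i := by
    rcases h : Nat.find h0 with _ | n
    · exact .of_forall fun _ => by simp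
    · exact (not_eventually.1 (Nat.find_min h0 (m := n) (by omega))).mono fun i hi =>
        Order.add_one_le_of_lt (not_le.1 hi)
  generalize Nat.find h0 = w at h1 hN
  obtain ⟨g, g1, g2⟩ := RI.choice (Y := fun _ => false) (R := fun a b => a < b ∧ ∃ m,
    w ≤ ((Finset.range m).filter (F · = b)).card) (by fun_prop) fun a => by
      simpa only [← le_fib, and_comm] using (h1.and_eventually (eventually_gt_atTop a)).exists
  let r : ℕ → ℕ := fun k => g (Nat.rec N (fun _ x => g x) k)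
  have r1 : StrictMono r := strictMono_nat_of_lt_succ fun k => (g2 _).1
  have r2 : ∀ k, N ≤ r k := fun k => (g2 N).1.le.trans (r1.monotone k.zero_le)
  have r3 : ∀ k, fib F (r k) = w := fun k => (hN _ (r2 k)).1.antisymm (le_fib.2 (g2 _).2)
  have r4 : CI (fun _ => false) r := by unfold r; fun_prop
  clear_value r
  obtain ⟨ρ, k1, k2⟩ := RI.choice (Y := fun _ => false) (R := fun i y => (∃ k, r k = i ∧
    y = if k % 4 < 2 then k % 4 else k / 4 + 2) ∨ (∀ k < i + 1, r k ≠ i) ∧ y = if i = 1 then 1 else 0)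
    (by fun_prop) fun i => by
      by_cases c : ∃ k, r k = i
      · exact c.elim fun k hk => ⟨_, .inl ⟨k, hk, rfl⟩⟩
      · exact ⟨_, .inr ⟨fun k _ e => c ⟨k, e⟩, rfl⟩⟩
  have k3 : ∀ k, ρ (r k) = if k % 4 < 2 then k % 4 else k / 4 + 2 := fun k =>
    (k2 (r k)).elim (fun ⟨_, a, b⟩ => r1.injective a ▸ b) fun a =>
      absurd rfl (a.1 k (Nat.lt_succ_of_le (r1.id_le k)))
  have k4 : ∀ i, 2 ≤ i → ρ ⁻¹' {i} = ({r (4 * (i - 2) + 2), r (4 * (i - 2) + 3)} : Finset ℕ) := by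
    refine fun i hi => Set.ext fun j => ⟨fun h => ?_, fun h => ?_⟩
    · rcases k2 j with ⟨k, rfl, a⟩ | ⟨-, a⟩
      · simp only [Set.mem_preimage, Set.mem_singleton_iff, a, Finset.coe_insert,
          Finset.coe_singleton, Set.mem_insert_iff, r1.injective.eq_iff] at h ⊢
        split_ifs at h <;> omega
      · rw [show ρ j = i from h] at a
        split_ifs at a <;> omega
    · rcases (by simpa using h : _ ∨ _) with rfl | rfl <;> simp only [Set.mem_preimage, k3,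
        Set.mem_singleton_iff] <;> split_ifs <;> omega
  have k5 : ∀ i, r (4 * (i - 2) + 2) ≠ r (4 * (i - 2) + 3) := fun i => r1.injective.ne (by omega)
  refine ⟨ρ, w + w, ⟨k1, fun i hi => ?_, fun i hi => ?_⟩, fun i hi => ?_, fun hw i hi => ?_⟩
  · rcases k2 i with ⟨k, rfl, -⟩ | ⟨-, a⟩
    · exact absurd (hN _ (r2 k)).2 (by omega)
    · split_ifs at a <;> omega
  · rw [fib, k4 i hi, Set.encard_coe_eq_coe_finsetCard, Finset.card_pair (k5 i)]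
  · rw [fib, Set.preimage_comp, k4 i hi, enc, Finset.sum_pair (k5 i), r3, r3, Nat.cast_add]
  · have : ∀ k, ∃ z, F z = r (4 * k + i) := fun k => Set.encard_pos.1
      ((Nat.cast_pos.2 (show 0 < w by omega)).trans_eq (r3 _).symm)
    choose z hz using this
    refine Set.encard_eq_top_iff.2 (Set.infinite_of_injective_forall_mem (f := z) (fun a b e => ?_)
      fun k => ?_)
    · have := r1.injective ((hz a).symm.trans (e ▸ hz b))
      omega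
    · simp only [Set.mem_preimage, comp, hz, k3, Set.mem_singleton_iff]
      split_ifs <;> omega

theorem split {a b : ℕ} (ha : 2 ≤ a) (hab : a ≠ b) :
    ∃ ρ, Reg 1 ρ ∧ ρ a < 2 ∧ ρ b < 2 ∧ ρ a ≠ ρ b := by
  refine ⟨fun i => if a + b < i then i - (a + b) + 1 else if i = a then (if b = 1 then 0 else 1)
    else if i = 1 then 1 else 0, ⟨ci_prim (by fun_prop), fun i hi => ?_, fun i hi => ?_⟩, ?_⟩
  · dsimp only; split_ifs <;> omega
  · refine Set.encard_eq_one.2 ⟨i + a + b - 1, Set.ext fun j => ?_⟩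
    simp only [Set.mem_preimage, Set.mem_singleton_iff]
    split_ifs <;> omega
  · dsimp only; split_ifs <;> omega

theorem diag (h : Hom F w) (h' : Hom F' w') {φ : ℕ → ℕ} : ∃ ρ, Reg 1 ρ ∧ (w' < w → Injective φ →
    ∃ z, ρ (F z) < 2 ∧ ρ (F' (φ z)) < 2 ∧ ρ (F z) ≠ ρ (F' (φ z))) := by
  by_cases c : w' < w ∧ Injective φ
  · obtain ⟨z, h1, h2⟩ : ∃ z, F z = 2 ∧ F' (φ z) ≠ 2 := by
      by_contra! d
      have := Set.encard_le_encard_of_injOn (s := F ⁻¹' {2}) (t := F' ⁻¹' {2}) d c.2.injOn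
      exact c.1.not_ge (by exact_mod_cast (h 2 le_rfl).ge.trans (this.trans (h' 2 le_rfl).le))
    obtain ⟨ρ, k1, k2⟩ := split le_rfl h2.symm
    exact ⟨ρ, k1, fun _ _ => ⟨z, h1 ▸ k2⟩⟩
  · obtain ⟨ρ, k1, -⟩ := split (a := 2) (b := 0) le_rfl (by omega)
    exact ⟨ρ, k1, fun a b => absurd ⟨a, b⟩ c⟩

theorem embed (hF : C0 F) (hF' : C0 F') (h : Hom F w) (h' : Hom F' w') (hw : w ≤ w')
    (hr : Rich F') : ∃ φ, Computable φ ∧ Injective φ ∧ ∀ z, F' (φ z) = F z := by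
  obtain ⟨φ, h1, h2⟩ := RI.choice (Y := fun _ => false) (R := fun z y => F' y = F z ∧
    ((Finset.range y).filter (F' · = F z)).card = ((Finset.range z).filter (F · = F z)).card)
    (by fun_prop) fun z => by
      simp only [← Nat.count_eq_card_filter_range]
      have : ∀ hf : {y | F' y = F z}.Finite, Nat.count (F · = F z) z < hf.toFinset.card := by
        intro hf
        have k1 : fib F (F z) ≤ fib F' (F z) := (lt_or_ge (F z) 2).elim (fun c => hr _ c ▸ le_top)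
          fun c => by rw [h _ c, h' _ c]; exact_mod_cast hw
        have k2 := k1.trans_eq hf.encard_eq_coe_toFinset_card
        have k3 := Set.finite_of_encard_le_coe k2
        refine (Nat.count_lt_card k3 rfl).trans_le ?_
        exact_mod_cast k3.encard_eq_coe_toFinset_card.ge.trans k2
      exact ⟨_, Nat.nth_mem _ this, Nat.count_nth this⟩
  refine ⟨φ, C0.comp h1, fun a b e => ?_, fun z => (h2 z).1⟩
  have k1 : F a = F b := (h2 a).1.symm.trans (e ▸ (h2 b).1)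
  have k2 := (h2 a).2
  rw [e, k1, (h2 b).2] at k2
  simp only [← Nat.count_eq_card_filter_range] at k2
  exact Nat.count_injective (p := (F · = F b)) k1 rfl k2.symm

theorem stage (κ f f' φ : ℕ → ℕ) : ∃ ρ, Reg 4 ρ ∧ (C0 (κ ∘ f) → C0 (κ ∘ f') → Bd (κ ∘ f) →
    Bd (κ ∘ f') → ∃ w w', Hom (ρ ∘ κ ∘ f) w ∧ Hom (ρ ∘ κ ∘ f') w' ∧ (0 < w → Rich (ρ ∘ κ ∘ f)) ∧
      (w' < w → Injective φ → ∃ z, ρ (κ (f z)) < 2 ∧ ρ (κ (f' (φ z))) < 2 ∧
        ρ (κ (f z)) ≠ ρ (κ (f' (φ z))))) := by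
  by_cases c : C0 (κ ∘ f) ∧ C0 (κ ∘ f') ∧ Bd (κ ∘ f) ∧ Bd (κ ∘ f')
  · obtain ⟨ρ, w, h1, h2, h3⟩ := homog c.1 c.2.2.1
    obtain ⟨ρ', w', h4, h5, -⟩ := homog (h1.1.o c.2.1) (c.2.2.2.comp h1)
    obtain ⟨ρ'', h6, h7⟩ := diag (h2.comp h4) h5 (φ := φ)
    exact ⟨_, (h1.comp h4).comp h6, fun _ _ _ _ => ⟨_, _, (h2.comp h4).comp h6, h5.comp h6,
      fun h => ((h3 (by omega)).comp h4).comp h6, fun h => h7 (by omega)⟩⟩
  · have h0 : Bd id := ⟨1, fun i _ => by simp [fib]⟩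
    obtain ⟨ρ, -, h1, -⟩ := homog ci_id h0
    exact ⟨_, h1.comp h1, fun a b d e => absurd ⟨a, b, d, e⟩ c⟩

theorem enum : ∃ e : ℕ → (ℕ → ℕ) × (ℕ → ℕ) × (ℕ → ℕ), ∀ f f' φ, Computable f → Computable f' →
    Computable φ → ∀ n, ∃ m, n ≤ m ∧ e m = (f, f', φ) := by
  have h : {f : ℕ → ℕ | Computable f}.Countable :=
    ((Set.countable_range Nat.Partrec.Code.eval).preimage
      (f := fun (g : ℕ → ℕ) n => Part.some (g n)) fun _ _ h => funext fun n =>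
        Part.some_injective (congrFun h n)).mono fun _ h =>
          Nat.Partrec.Code.exists_code.1 (Partrec.nat_iff.1 h.partrec)
  obtain ⟨e, he⟩ := (h.prod (h.prod h)).exists_eq_range ⟨(id, id, id), .id, .id, .id⟩
  refine ⟨fun m => e m.unpair.1, fun f f' φ a b c n => ?_⟩
  obtain ⟨k, hk⟩ := he.subset (show (f, f', φ) ∈ _ from ⟨a, b, c⟩)
  exact ⟨Nat.pair k n, Nat.right_le_pair _ _, by simp [hk]⟩

/-- the set and its measure -/
theorem core : ∃ (A : ℕ → Prop) (M : (ℕ → ℕ) → ℕ → ℕ → Prop), M id 0 1 ∧ M (· / 2) 0 2 ∧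
    (∀ f n w d, M f n w → M f (n + d) (4 ^ d * w)) ∧
    (∀ f, Computable f → (∃ c : ℕ, ∀ y, (f ⁻¹' {y}).encard ≤ c) → ∃ n w, M f n w) ∧
    (∀ f n, M f n 0 → M (fun y => f y.unpair.1) n 0) ∧
    (∀ n w, 0 < w → ∃ f, Computable f ∧ M f n w) ∧
    (∀ f f' n w w', Computable f → Computable f' → M f n w → M f' n w' → (w' < w →
      ¬ (A ∘ f) ≤₁ (A ∘ f')) ∧ (w ≤ w' → 0 < w' → (A ∘ f) ≤₁ (A ∘ f'))) := by
  obtain ⟨e, he⟩ := enum
  choose R h1 h2 using stage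
  let κ : ℕ → ℕ → ℕ := fun n => Nat.rec id (fun n κ => R κ (e n).1 (e n).2.1 (e n).2.2 ∘ κ) n
  have h0 : Reg 1 id := ⟨ci_id, fun _ _ => rfl, fun i _ => by simp [fib]⟩
  have k1 : ∀ n d, ∃ ρ, Reg (4 ^ d) ρ ∧ κ (n + d) = ρ ∘ κ n := fun n d => by
    induction d with
    | zero => exact ⟨id, h0, rfl⟩
    | succ d ih =>
      obtain ⟨ρ, a, b⟩ := ih
      exact ⟨_, pow_succ' 4 d ▸ a.comp (h1 _ _ _ _), by rw [comp_assoc, ← b]; rfl⟩
  have k2 : ∀ n, Reg (4 ^ n) (κ n) := fun n => by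
    obtain ⟨ρ, a, b⟩ := k1 0 n
    rw [zero_add] at b
    exact b ▸ a
  have k3 : ∀ f n w d, Hom (κ n ∘ f) w → Hom (κ (n + d) ∘ f) (4 ^ d * w) := fun f n w d h => by
    obtain ⟨ρ, a, b⟩ := k1 n d
    exact b ▸ h.comp a
  have k4 : ∀ n x y, κ n x = κ n y → (∃ m, κ m x = 1) → ∃ m, κ m y = 1 := fun n x y h ⟨m, hm⟩ => by
    obtain ⟨ρ, a, b⟩ := k1 m n
    obtain ⟨ρ', -, b'⟩ := k1 n m
    exact ⟨n + m, by rw [b', comp, ← h, ← comp_apply (f := ρ'), ← b', add_comm, b, comp, hm,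
      a.2.1 1 (by omega)]⟩
  have k5 : ∀ n x, κ n x < 2 → ((∃ m, κ m x = 1) ↔ κ n x = 1) := fun n x h =>
    ⟨fun ⟨m, hm⟩ => by
      obtain ⟨ρ, a, b⟩ := k1 m n
      obtain ⟨ρ', a', b'⟩ := k1 n m
      rw [← a'.2.1 _ h, ← comp_apply (f := ρ'), ← b', add_comm, b, comp, hm, a.2.1 1 (by omega)],
      fun h => ⟨n, h⟩⟩
  have k6 : ∀ n f, Computable f → C0 (κ n ∘ f) := fun n f h => (k2 n).1.o (Computable.ci h)
  refine ⟨fun x => ∃ m, κ m x = 1, fun f n w => Hom (κ n ∘ f) w, h0.2.2, fun i _ => ?_, k3,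
    fun f hf ⟨c, hc⟩ => ?_, fun f n h i hi => ?_, fun n w hw => ?_,
    fun f f' n w w' a a' b b' => ⟨fun h ⟨φ, c1, c2, c3⟩ => ?_, fun h h' => ?_⟩⟩
  · exact Set.encard_eq_two.2 ⟨2 * i, 2 * i + 1, by omega, Set.ext fun j => by simp [κ]; omega⟩
  · obtain ⟨m, -, hm⟩ := he f f id hf hf .id 0
    have : Bd (κ m ∘ f) := Bd.comp ⟨c, fun i _ => hc i⟩ (k2 m)
    obtain ⟨w, -, h, -⟩ := h2 (κ m) f f id (k6 _ _ hf) (k6 _ _ hf) this this
    exact ⟨m + 1, w, by simpa [κ, hm, comp_assoc] using h⟩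
  · have := Set.encard_eq_zero.1 (h i hi)
    exact Set.encard_eq_zero.2 (Set.eq_empty_of_forall_notMem fun y hy =>
      this.subset (show y.unpair.1 ∈ _ from hy))
  · have := (k2 n).1
    obtain ⟨s, s1, s2⟩ := RI.choice (Y := fun _ => false) (R := fun i x => κ n x = i)
      (by clear_value κ; fun_prop) fun i => (lt_or_ge i 2).elim (fun c => ⟨i, (k2 n).2.1 i c⟩)
        fun c => Set.encard_pos.1 (lt_of_lt_of_eq (Nat.cast_pos.2 (by positivity))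
          ((k2 n).2.2 i c).symm)
    refine ⟨fun z => s (z / w), C0.comp (by unfold C0; clear this; fun_prop), fun i _ => ?_⟩
    rw [fib, show _ ⁻¹' _ = (Finset.Ico (i * w) (i * w + w) : Set ℕ) from Set.ext fun z => by
      simp [s2, Nat.div_eq_iff hw]; omega, Set.encard_coe_eq_coe_finsetCard]
    simp
  · obtain ⟨m, hn, hm⟩ := he f f' φ a a' c1 n
    obtain ⟨d, rfl⟩ := Nat.exists_eq_add_of_le hn
    obtain ⟨u, u', d1, d2, -, d3⟩ := h2 (κ (n + d)) f f' φ (k6 _ _ a) (k6 _ _ a')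
      ⟨_, fun i hi => (k3 _ _ _ d b i hi).le⟩ ⟨_, fun i hi => (k3 _ _ _ d b' i hi).le⟩
    have e1 : κ (n + (d + 1)) = R (κ (n + d)) f f' φ ∘ κ (n + d) := by
      simp [κ, ← add_assoc, hm]
    rw [← comp_assoc, ← e1] at d1 d2
    obtain ⟨z, d4, d5, d6⟩ := d3 (by
      rw [d1.uniq (k3 _ _ _ (d + 1) b), d2.uniq (k3 _ _ _ (d + 1) b')]
      exact Nat.mul_lt_mul_of_pos_left h (by positivity)) c2
    have := c3 z
    have e2 : ∀ x, R (κ (n + d)) f f' φ (κ (n + d) x) = κ (n + (d + 1)) x :=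
      fun x => (congrFun e1 x).symm
    simp only [e2] at d4 d5 d6
    simp only [comp, k5 (n + (d + 1)) _ d4, k5 (n + (d + 1)) _ d5] at this
    omega
  · obtain ⟨m, hn, hm⟩ := he f' f' id a' a' .id n
    obtain ⟨d, rfl⟩ := Nat.exists_eq_add_of_le hn
    have : Bd (κ (n + d) ∘ f') := ⟨_, fun i hi => (k3 _ _ _ d b' i hi).le⟩
    obtain ⟨u, -, d1, -, d2, -⟩ := h2 (κ (n + d)) f' f' id (k6 _ _ a') (k6 _ _ a') this this
    have e1 : κ (n + (d + 1)) = R (κ (n + d)) f' f' id ∘ κ (n + d) := by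
      simp [κ, ← add_assoc, hm]
    rw [← comp_assoc, ← e1] at d1 d2
    obtain ⟨φ, c1, c2, c3⟩ := embed (k6 (n + (d + 1)) _ a) (k6 (n + (d + 1)) _ a') (k3 _ _ _ (d + 1) b) (k3 _ _ _ (d + 1) b')
      (Nat.mul_le_mul_left _ h) (d2 (by rw [d1.uniq (k3 _ _ _ (d + 1) b')]; positivity))
    exact ⟨φ, c1, c2, fun z => ⟨k4 (n + (d + 1)) _ _ (c3 z).symm, k4 (n + (d + 1)) _ _ (c3 z)⟩⟩

def Bfin (p q : ℕ → Prop) : Prop := ∃ f : ℕ → ℕ, Computable f ∧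
  (∃ c : ℕ, ∀ y, (f ⁻¹' {y}).encard ≤ c) ∧ ∀ x, p x ↔ q (f x)

def InDeg (A B : ℕ → Prop) : Prop := Bfin A B ∧ Bfin B A

theorem Bfin.one {p q r : ℕ → Prop} (h : Bfin p q) (h' : q ≤₁ r) : Bfin p r := by
  obtain ⟨f, h1, ⟨c, h2⟩, h3⟩ := h
  obtain ⟨g, k1, k2, k3⟩ := h'
  refine ⟨g ∘ f, k1.comp h1, ⟨c, fun y => ?_⟩, fun x => (h3 x).trans (k3 _)⟩
  by_cases d : ∃ a, g a = y
  · obtain ⟨a, rfl⟩ := d
    exact (Set.encard_le_encard fun z hz => k2 hz).trans (h2 a)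
  · rw [Set.eq_empty_of_forall_notMem (s := (g ∘ f) ⁻¹' {y}) fun z hz => d ⟨_, hz⟩]; simp

theorem Bfin.one' {p q r : ℕ → Prop} (h' : p ≤₁ q) (h : Bfin q r) : Bfin p r := by
  obtain ⟨f, h1, ⟨c, h2⟩, h3⟩ := h
  obtain ⟨g, k1, k2, k3⟩ := h'
  exact ⟨f ∘ g, h1.comp k1, ⟨c, fun y => (Set.encard_le_encard_of_injOn (f := g) (t := f ⁻¹' {y})
    (fun _ h => h) k2.injOn).trans (h2 y)⟩, fun x => (k3 x).trans (h3 _)⟩

theorem final : ∃ A : ℕ → Prop, (∀ B C, InDeg A B → InDeg A C → B ≤₁ C ∨ C ≤₁ B) ∧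
    (∀ B C, InDeg A B → InDeg A C → B ≤₁ C → ¬ C ≤₁ B →
      ∃ E, InDeg A E ∧ B ≤₁ E ∧ ¬ E ≤₁ B ∧ E ≤₁ C ∧ ¬ C ≤₁ E) ∧
    ∃ B C, InDeg A B ∧ InDeg A C ∧ ¬ B ≤₁ C := by
  obtain ⟨A, M, h1, h2, h3, h4, h5, h6, h7⟩ := core
  have k1 : ∀ B, InDeg A B → ∃ f n w, Computable f ∧ B = A ∘ f ∧ M f n w ∧ 0 < w := by
    rintro B ⟨⟨g, a1, -, a2⟩, f, a3, a4, a5⟩
    obtain ⟨n, w, a6⟩ := h4 f a3 a4
    refine ⟨f, n, w, a3, funext fun x => propext (a5 x), a6, Nat.pos_of_ne_zero ?_⟩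
    rintro rfl
    exact (h7 id _ n _ 0 .id (by fun_prop) (zero_add n ▸ h3 _ _ _ n h1) (h5 _ _ a6)).1
      (by positivity) ⟨fun z => Nat.pair (g z) z, by
        exact Primrec₂.natPair.to_comp.comp a1 .id, fun a b e => by
          simpa using (Nat.pair_eq_pair.1 e).2, fun z => by simpa using (a2 z).trans (a5 _)⟩
  have k2 : ∀ B C, InDeg A B → InDeg A C → ∃ f f' n w w', Computable f ∧ Computable f' ∧
      B = A ∘ f ∧ C = A ∘ f' ∧ M f n w ∧ M f' n w' ∧ 0 < w ∧ 0 < w' := fun B C hB hC => by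
    obtain ⟨f, n, w, a1, a2, a3, a4⟩ := k1 B hB
    obtain ⟨f', n', w', b1, b2, b3, b4⟩ := k1 C hC
    exact ⟨f, f', n + n', _, _, a1, b1, a2, b2, h3 _ _ _ _ a3, add_comm n n' ▸ h3 _ _ _ _ b3,
      by positivity, by positivity⟩
  have k3 : Computable fun z : ℕ => z / 2 := by fun_prop
  have k4 : Bfin A A := ⟨id, .id, ⟨1, by simp⟩, fun _ => .rfl⟩
  refine ⟨A, fun B C hB hC => ?_, fun B C hB hC _ h => ?_, A ∘ (· / 2), A,
    ⟨k4.one ((h7 _ _ _ _ _ .id k3 h1 h2).2 (by omega) (by omega)), _, k3, ⟨2, fun y => ?_⟩,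
      fun _ => .rfl⟩, ⟨k4, k4⟩, (h7 _ _ _ _ _ k3 .id h2 h1).1 (by omega)⟩
  · obtain ⟨f, f', n, w, w', a1, a2, rfl, rfl, a3, a4, a5, a6⟩ := k2 B C hB hC
    exact (le_total w w').imp (fun c => (h7 _ _ _ _ _ a1 a2 a3 a4).2 c a6)
      fun c => (h7 _ _ _ _ _ a2 a1 a4 a3).2 c a5
  · obtain ⟨f, f', n, w, w', a1, a2, rfl, rfl, a3, a4, a5, a6⟩ := k2 B C hB hC
    have c : w < w' := not_le.1 fun c => h ((h7 _ _ _ _ _ a2 a1 a4 a3).2 c a5)
    obtain ⟨g, b1, b2⟩ := h6 (n + 1) (4 * w + 1) (by omega)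
    replace a3 := h3 _ _ _ 1 a3
    replace a4 := h3 _ _ _ 1 a4
    have b3 := (h7 _ _ _ _ _ a1 b1 a3 b2).2 (by omega) (by omega)
    have b4 := (h7 _ _ _ _ _ b1 a2 b2 a4).2 (by omega) (by omega)
    exact ⟨_, ⟨hB.1.one b3, .one' b4 hC.2⟩, b3, (h7 _ _ _ _ _ b1 a1 b2 a3).1 (by omega), b4,
      (h7 _ _ _ _ _ a2 b1 a4 b2).1 (by omega)⟩
  · exact (Set.encard_eq_two.2 ⟨2 * y, 2 * y + 1, by omega, Set.ext fun j => by simp; omega⟩).le

end Pool.Agent.H.MP_d57ee4_lc
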